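import Pool.Agent.Zk1.BD.Core2

set_option autoImplicit false

/-!
# The local theorem, abstract form, radius 1
-/

namespace Pool.Agent.Zk1.BI

open Complex Filter Topology MeasureTheory Set Metric
open Pool.Agent.Zk1.BD (sum_ge_card H_eq good_circle circle_count)
open H370.Loc (Pf Pf_zero Pf_cons Pf_diff Pf_ne_zero Pf_norm_le extract logDeriv_zero_free count_le_mult order_ne_top)

/-- Abstract form of the local theorem. -/
theorem core1 (ε : ℝ) (hε : 0 < ε) (hε1 : ε ≤ 1 / 20) : ∃ δ κ X0 : ℝ, 0 < δ ∧ δ ≤ 1 ∧ 0 < κ ∧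
    ∀ (x : ℝ) (f : ℂ → ℂ) (c : ℂ), X0 ≤ x → AnalyticOnNhd ℂ f (closedBall c ((1 : ℝ) + ε)) →
    (∀ z ∈ closedBall c ((1 : ℝ) + ε), ‖f z‖ ≤ Real.exp (Real.exp (δ * x))) → 1 / 2 ≤ ‖f c‖ →
    (∀ z ∈ closedBall c (1 / 16), f z ≠ 0 ∧ ‖logDeriv f z‖ ≤ Real.exp (-(x / 8))) → f (c - (1 : ℝ)) = 0 →
    ∃ S : Finset ℂ, (∀ z ∈ S, z ∈ closedBall c ((1 : ℝ) + ε) ∧ f z = 0) ∧
      κ * x ≤ ∑ z ∈ S, (analyticOrderNatAt f z : ℝ) := by
  obtain ⟨θ, hθ0, hθ1, htc⟩ := Pool.Agent.H296R2.LE.three_circles (r := 1 / 16) (ρ := (1 : ℝ) + ε / 2) (R := (1 : ℝ) + 5 * ε / 8)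
    (by norm_num) (by linarith) (by linarith)
  set δ : ℝ := (1 - θ) / 32 with hδ
  have hδ0 : 0 < δ := by rw [hδ]; linarith
  have hδ1 : δ ≤ 1 := by rw [hδ]; linarith
  set l : ℝ := Real.log (64 / ε) with hl
  have hl4 : Real.log 4 ≤ l := by
    apply Real.log_le_log (by norm_num)
    rw [le_div_iff₀ hε]; linarith
  have hlog4 : 0 < Real.log 4 := Real.log_pos (by norm_num)
  have hl0 : 0 < l := by linarith
  set κ : ℝ := δ / (l + 1) with hκ
  have hκ0 : 0 < κ := by positivity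
  have hκl : κ * l ≤ δ := by
    rw [hκ, div_mul_eq_mul_div, div_le_iff₀ (by linarith)]
    nlinarith
  set A : ℝ := Real.log (4098 / ε ^ 2) with hA
  have hA0 : 0 ≤ A := by
    apply Real.log_nonneg
    rw [le_div_iff₀ (by positivity)]
    nlinarith
  refine ⟨δ, κ, (A + 3) / (2 * δ) + 1, hδ0, hδ1, hκ0, ?_⟩
  intro x f c hx hf hfb hfc hfs hf0
  have hx1 : 1 ≤ x := by
    have : 0 ≤ (A + 3) / (2 * δ) := by positivity
    linarith
  have hxA : A + 3 ≤ 2 * δ * x := by
    have h1 : (A + 3) / (2 * δ) ≤ x := by linarith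
    rw [div_le_iff₀ (by positivity)] at h1
    linarith
  have hc0 : f c ≠ 0 := by
    intro e
    rw [e, norm_zero] at hfc
    linarith
  have hexp : 0 < Real.exp (δ * x) := Real.exp_pos _
  obtain ⟨s, g, hs, hg, hfg, hgz, -⟩ := extract (r := (1 : ℝ) + 15 * ε / 16) (R := (1 : ℝ) + ε) (c := c)
    (M := Real.exp (Real.exp (δ * x))) (by linarith) (by linarith) (Real.one_le_exp hexp.le) hf hc0 hfb
  set J := Multiset.card s with hJ
  have hsR : ∀ ρ ∈ s, ρ ∈ closedBall c ((1 : ℝ) + ε) := fun ρ hρ =>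
    closedBall_subset_closedBall (by linarith) (hs ρ hρ).1
  have hsum := sum_ge_card (s := s) (by linarith : 0 < (1 : ℝ) + ε) hf hc0 hg hsR hfg
  rcases le_or_gt (κ * x) J with hJx | hJx
  · refine ⟨s.toFinset, fun z hz => ?_, hJx.trans hsum⟩
    have h1 := Multiset.mem_toFinset.1 hz
    exact ⟨hsR z h1, (hs z h1).2⟩
  exfalso
  have hJ0 : (0 : ℝ) ≤ J := Nat.cast_nonneg _
  have hJl : (J : ℝ) * l ≤ δ * x := by
    calc (J : ℝ) * l ≤ (κ * x) * l := by gcongr
      _ = (κ * l) * x := by ring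
      _ ≤ δ * x := by gcongr
  have hsn : ∀ ρ ∈ s, ‖ρ - c‖ ≤ (1 : ℝ) + 15 * ε / 16 := fun ρ hρ => by
    have := (hs ρ hρ).1
    rwa [mem_closedBall, dist_eq_norm] at this
  -- the zero free factor
  obtain ⟨r4, ⟨hr4a, hr4b⟩, hr4⟩ := good_circle s c (a := (1 : ℝ) + 3 * ε / 4) (b := (1 : ℝ) + 7 * ε / 8) (by linarith)
  have e32 : ((1 : ℝ) + 7 * ε / 8 - ((1 : ℝ) + 3 * ε / 4)) / 4 = ε / 32 := by ring
  rw [e32] at hr4
  have hr40 : 0 < r4 := by linarith
  have hpow : ∀ a : ℝ, 0 < a → a ^ J = Real.exp (J * Real.log a) := fun a ha => by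
    rw [Real.exp_nat_mul, Real.exp_log ha]
  have hsph : ∀ z ∈ sphere c r4, ‖g z‖ ≤ Real.exp (Real.exp (δ * x) + J * Real.log (32 / ε)) := by
    intro z hz
    have hz1 : ‖z - c‖ = r4 := by rwa [mem_sphere, dist_eq_norm] at hz
    have h1 := hr4 z hz1
    have h2 := hfb z (by rw [mem_closedBall, dist_eq_norm, hz1]; linarith)
    rw [hfg z, norm_mul] at h2
    have h3 : 0 < (ε / 32) ^ J := by positivity
    have h4 : (ε / 32) ^ J * ‖g z‖ ≤ Real.exp (Real.exp (δ * x)) :=
      (mul_le_mul_of_nonneg_right h1 (norm_nonneg _)).trans h2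
    have h5 : Real.exp (J * Real.log (32 / ε)) * (ε / 32) ^ J = 1 := by
      rw [← hpow _ (by positivity), ← mul_pow]
      have : 32 / ε * (ε / 32) = 1 := by field_simp
      rw [this, one_pow]
    rw [Real.exp_add]
    calc ‖g z‖ = (Real.exp (J * Real.log (32 / ε)) * (ε / 32) ^ J) * ‖g z‖ := by rw [h5, one_mul]
      _ = Real.exp (J * Real.log (32 / ε)) * ((ε / 32) ^ J * ‖g z‖) := by ring
      _ ≤ Real.exp (J * Real.log (32 / ε)) * Real.exp (Real.exp (δ * x)) := by gcongr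
      _ = _ := mul_comm _ _
  have hgd : DifferentiableOn ℂ g (closedBall c r4) := fun z hz =>
    (hg z (closedBall_subset_closedBall (by linarith) hz)).differentiableAt.differentiableWithinAt
  have hball : ∀ z ∈ closedBall c r4, ‖g z‖ ≤ Real.exp (Real.exp (δ * x) + J * Real.log (32 / ε)) := by
    intro z hz
    have hdc : DiffContOnCl ℂ g (ball c r4) := by
      apply DifferentiableOn.diffContOnCl
      rw [closure_ball _ hr40.ne']
      exact hgd
    refine Complex.norm_le_of_forall_mem_frontier_norm_le isBounded_ball hdc (fun w hw => ?_)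
      (by rw [closure_ball _ hr40.ne']; exact hz)
    rw [frontier_ball _ hr40.ne'] at hw
    exact hsph w hw
  have hgc : Real.exp (-(J * Real.log 2 + Real.log 2)) ≤ ‖g c‖ := by
    have h1 : ‖Pf s c‖ ≤ 2 ^ J := Pf_norm_le fun ρ hρ => by
      rw [norm_sub_rev]
      linarith [hsn ρ hρ]
    have h2 : 1 / 2 ≤ 2 ^ J * ‖g c‖ := by
      rw [hfg c, norm_mul] at hfc
      exact hfc.trans (mul_le_mul_of_nonneg_right h1 (norm_nonneg _))
    rw [Real.exp_neg, Real.exp_add, Real.exp_log (by norm_num : (0 : ℝ) < 2), ← hpow 2 (by norm_num)]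
    rw [inv_le_iff_one_le_mul₀ (by positivity)]
    linarith
  set B : ℝ := Real.exp (δ * x) + J * l + 1 with hB
  have hlog2 : Real.log 2 ≤ 1 := by
    have := Real.log_two_lt_d9
    linarith
  have hBb : ∀ z ∈ closedBall c r4, ‖g z‖ ≤ Real.exp B * ‖g c‖ := by
    intro z hz
    refine (hball z hz).trans ?_
    have h1 : Real.exp B * Real.exp (-(J * Real.log 2 + Real.log 2)) ≤ Real.exp B * ‖g c‖ := by gcongr
    refine le_trans ?_ h1
    rw [← Real.exp_add]
    apply Real.exp_le_exp.2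
    have h2 : l = Real.log (32 / ε) + Real.log 2 := by
      rw [hl, ← Real.log_mul (by positivity) (by norm_num)]
      congr 1
      ring
    rw [hB, h2]
    linarith
  have hB0 : 0 ≤ B := by rw [hB]; positivity
  have hB1 : B + 1 ≤ 4 * Real.exp (δ * x) := by
    have h1 : δ * x ≤ Real.exp (δ * x) - 1 := by linarith [Real.add_one_le_exp (δ * x)]
    have h2 : 1 ≤ Real.exp (δ * x) := Real.one_le_exp (by positivity)
    rw [hB]
    linarith
  have hgz4 : ∀ z ∈ closedBall c r4, g z ≠ 0 := fun z hz =>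
    hgz z (closedBall_subset_closedBall (by linarith) hz)
  have hg4 : AnalyticOnNhd ℂ g (closedBall c r4) := hg.mono (closedBall_subset_closedBall (by linarith))
  have hld : ∀ z ∈ closedBall c ((1 : ℝ) + 5 * ε / 8), ‖logDeriv g z‖ ≤ 4096 / ε ^ 2 * Real.exp (δ * x) := by
    intro z hz
    have h1 := logDeriv_zero_free (g := g) (c := c) (r := r4) (r1 := (1 : ℝ) + 11 * ε / 16) (r2 := (1 : ℝ) + 5 * ε / 8) (B := B)
      (by linarith) (by linarith) (by linarith) hB0 hg4 hgz4 hBb hz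
    refine h1.trans ?_
    have e1 : (1 : ℝ) + 11 * ε / 16 - ((1 : ℝ) + 5 * ε / 8) = ε / 16 := by ring
    have e2 : ε / 16 ≤ r4 - ((1 : ℝ) + 11 * ε / 16) := by linarith
    rw [e1]
    have h2 : 0 < ε / 16 := by positivity
    calc 2 * (B + 1) * ((1 : ℝ) + 11 * ε / 16) / (r4 - ((1 : ℝ) + 11 * ε / 16)) / (ε / 16)
        ≤ 2 * (4 * Real.exp (δ * x)) * 2 / (ε / 16) / (ε / 16) := by
          gcongr
          linarith
      _ = _ := by field_simp; ring
  -- the function H
  set H : ℂ → ℂ := fun z => Pf s z * logDeriv g z + deriv (Pf s) z with hH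
  have hHd : DifferentiableOn ℂ H (ball c ((1 : ℝ) + 5 * ε / 8)) := by
    intro z hz
    have hz' : z ∈ closedBall c r4 := closedBall_subset_closedBall (by linarith) (ball_subset_closedBall hz)
    have h1 : DifferentiableAt ℂ (logDeriv g) z := ((hg4 z hz').deriv.div (hg4 z hz') (hgz4 z hz')).differentiableAt
    have h2 : DifferentiableAt ℂ (deriv (Pf s)) z := ((Pf_diff s).analyticAt z).deriv.differentiableAt
    exact (((Pf_diff s z).mul h1).add h2).differentiableWithinAt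
  have hPf4 : ∀ z : ℂ, ‖z - c‖ ≤ 23 / 10 → ‖Pf s z‖ ≤ 4 ^ J := fun z hz => Pf_norm_le fun ρ hρ => by
    have h1 := hsn ρ hρ
    calc ‖z - ρ‖ = ‖(z - c) - (ρ - c)‖ := by congr 1; ring
      _ ≤ ‖z - c‖ + ‖ρ - c‖ := norm_sub_le _ _
      _ ≤ 4 := by linarith
  have hJe : (4 : ℝ) ^ J = Real.exp (J * Real.log 4) := hpow 4 (by norm_num)
  set lm : ℝ := J * Real.log 4 - x / 8 with hlm
  set lM : ℝ := J * Real.log 4 + A + δ * x with hlM
  have hm : ∀ z ∈ closedBall c (1 / 16), ‖H z‖ ≤ Real.exp lm := by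
    intro z hz
    have hz1 : ‖z - c‖ ≤ 1 / 16 := by rwa [mem_closedBall, dist_eq_norm] at hz
    obtain ⟨h1, h2⟩ := hfs z hz
    have hz' : z ∈ closedBall c r4 := closedBall_subset_closedBall (by linarith) hz
    have h3 := H_eq (s := s) hfg (hg4 z hz').differentiableAt h1
    rw [hH]
    simp only
    rw [← h3, norm_mul, hlm, sub_eq_add_neg, Real.exp_add, ← hJe]
    exact mul_le_mul (hPf4 z (by linarith)) h2 (norm_nonneg _) (by positivity)
  have hM : ∀ z ∈ ball c ((1 : ℝ) + 5 * ε / 8), ‖H z‖ ≤ Real.exp lM := by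
    intro z hz
    have hz1 : ‖z - c‖ < (1 : ℝ) + 5 * ε / 8 := by rwa [mem_ball, dist_eq_norm] at hz
    have h1 := hPf4 z (by linarith)
    have h2 := hld z (ball_subset_closedBall hz)
    have h3 : ‖deriv (Pf s) z‖ ≤ 4 ^ J / (1 / 2) := by
      apply Complex.norm_deriv_le_of_forall_mem_sphere_norm_le (by norm_num) (Pf_diff s).diffContOnCl
      intro w hw
      rw [mem_sphere, dist_eq_norm] at hw
      apply hPf4
      calc ‖w - c‖ = ‖(w - z) + (z - c)‖ := by congr 1; ring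
        _ ≤ ‖w - z‖ + ‖z - c‖ := norm_add_le _ _
        _ ≤ 23 / 10 := by linarith
    have h4 : 1 ≤ Real.exp (δ * x) := Real.one_le_exp (by positivity)
    have h5 : (1 : ℝ) ≤ 1 / ε ^ 2 := by
      rw [le_div_iff₀ (by positivity)]
      nlinarith
    rw [hlM, Real.exp_add, Real.exp_add, hA, Real.exp_log (by positivity), ← hJe]
    calc ‖H z‖ ≤ ‖Pf s z‖ * ‖logDeriv g z‖ + ‖deriv (Pf s) z‖ := by
          rw [hH]
          refine (norm_add_le _ _).trans ?_
          rw [norm_mul]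
      _ ≤ 4 ^ J * (4096 / ε ^ 2 * Real.exp (δ * x)) + 4 ^ J / (1 / 2) := by gcongr
      _ = 4 ^ J * (4096 / ε ^ 2 * Real.exp (δ * x) + 2) := by ring
      _ ≤ 4 ^ J * (4098 / ε ^ 2 * Real.exp (δ * x)) := by
          gcongr
          have h6 : 1 * 1 ≤ 1 / ε ^ 2 * Real.exp (δ * x) := mul_le_mul h5 h4 (by norm_num) (by positivity)
          have h7 : 4098 / ε ^ 2 * Real.exp (δ * x) = 4096 / ε ^ 2 * Real.exp (δ * x) +
            2 * (1 / ε ^ 2 * Real.exp (δ * x)) := by ring
          linarith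
      _ = _ := by ring
  have hlmM : Real.exp lm ≤ Real.exp lM := by
    apply Real.exp_le_exp.2
    rw [hlm, hlM]
    have : 0 ≤ δ * x := by positivity
    linarith
  have hH3 := htc H c (Real.exp lm) (Real.exp lM) (Real.exp_pos _) hlmM hHd hm hM
  -- the good circle
  obtain ⟨r, ⟨hra, hrb⟩, hr⟩ := good_circle s c (a := (1 : ℝ) + ε / 4) (b := (1 : ℝ) + ε / 2) (by linarith)
  have e16 : ((1 : ℝ) + ε / 2 - ((1 : ℝ) + ε / 4)) / 4 = ε / 16 := by ring
  rw [e16] at hr
  have hr0 : 0 < r := by linarith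
  have hPne : ∀ z : ℂ, ‖z - c‖ = r → Pf s z ≠ 0 := fun z hz e => by
    have h1 := hr z hz
    rw [e, norm_zero] at h1
    have : 0 < (ε / 16) ^ J := by positivity
    linarith
  have hρr : ∀ ρ ∈ s, ‖ρ - c‖ ≠ r := fun ρ hρ e => by
    apply hPne ρ e
    obtain ⟨t, ht⟩ := Multiset.exists_cons_of_mem hρ
    rw [ht, Pf_cons, sub_self, zero_mul]
  have hfl : ∀ z ∈ sphere c r, ‖logDeriv f z‖ ≤ 1 / 8 := by
    intro z hz
    have hz1 : ‖z - c‖ = r := by rwa [mem_sphere, dist_eq_norm] at hz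
    have hz2 : z ∈ closedBall c r4 := by rw [mem_closedBall, dist_eq_norm]; linarith
    have hP := hPne z hz1
    have hfz : f z ≠ 0 := by rw [hfg z]; exact mul_ne_zero hP (hgz4 z hz2)
    have h1 := H_eq (s := s) hfg (hg4 z hz2).differentiableAt hfz
    have h2 := hH3 z (by rw [mem_closedBall, dist_eq_norm]; linarith)
    have h3 : ‖Pf s z‖ * ‖logDeriv f z‖ ≤ Real.exp ((1 - θ) * lm + θ * lM) := by
      rw [← norm_mul, h1]
      refine h2.trans (le_of_eq ?_)
      rw [← Real.exp_mul lm, ← Real.exp_mul lM, ← Real.exp_add]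
      congr 1
      ring
    have h4 := hr z hz1
    have h5 : (ε / 16) ^ J * ‖logDeriv f z‖ ≤ Real.exp ((1 - θ) * lm + θ * lM) :=
      (mul_le_mul_of_nonneg_right h4 (norm_nonneg _)).trans h3
    have h6 : Real.exp (J * Real.log (16 / ε)) * (ε / 16) ^ J = 1 := by
      rw [← hpow _ (by positivity), ← mul_pow]
      have : 16 / ε * (ε / 16) = 1 := by field_simp
      rw [this, one_pow]
    have h7 : ‖logDeriv f z‖ ≤ Real.exp (J * Real.log (16 / ε) + ((1 - θ) * lm + θ * lM)) := by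
      rw [Real.exp_add]
      calc ‖logDeriv f z‖ = (Real.exp (J * Real.log (16 / ε)) * (ε / 16) ^ J) * ‖logDeriv f z‖ := by
            rw [h6, one_mul]
        _ = Real.exp (J * Real.log (16 / ε)) * ((ε / 16) ^ J * ‖logDeriv f z‖) := by ring
        _ ≤ _ := by gcongr
    refine h7.trans ?_
    have h8 : J * Real.log (16 / ε) + ((1 - θ) * lm + θ * lM) ≤ -3 := by
      have e1 : l = Real.log (16 / ε) + Real.log 4 := by
        rw [hl, ← Real.log_mul (by positivity) (by norm_num)]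
        congr 1
        ring
      have e2 : (1 - θ) = 32 * δ := by rw [hδ]; ring
      have e3 : J * Real.log (16 / ε) + ((1 - θ) * lm + θ * lM) =
          J * l - (1 - θ) * (x / 8) + θ * (A + δ * x) := by
        rw [e1, hlm, hlM]; ring
      rw [e3, e2]
      have h9 : θ * (A + δ * x) ≤ 1 * (A + δ * x) := by gcongr
      linarith
    calc Real.exp (J * Real.log (16 / ε) + ((1 - θ) * lm + θ * lM)) ≤ Real.exp (-3) := Real.exp_le_exp.2 h8
      _ ≤ 1 / 8 := by
        rw [Real.exp_neg, inv_eq_one_div]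
        apply one_div_le_one_div_of_le (by norm_num)
        have h10 : Real.exp 3 = Real.exp 1 ^ 3 := by rw [← Real.exp_nat_mul]; norm_num
        have h11 := Real.exp_one_gt_d9
        rw [h10]
        calc (8 : ℝ) = 2 ^ 3 := by norm_num
          _ ≤ Real.exp 1 ^ 3 := by gcongr; linarith
  -- counting
  obtain ⟨i1, i2⟩ := circle_count s c hr0 hρr
  have heq : EqOn (logDeriv f) (fun z => logDeriv (Pf s) z + logDeriv g z) (sphere c r) := by
    intro z hz
    have hz1 : ‖z - c‖ = r := by rwa [mem_sphere, dist_eq_norm] at hz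
    have hz2 : z ∈ closedBall c r4 := by rw [mem_closedBall, dist_eq_norm]; linarith
    have hfe : f = fun z => Pf s z * g z := funext hfg
    rw [hfe]
    exact logDeriv_mul z (hPne z hz1) (hgz4 z hz2) (Pf_diff s z) (hg4 z hz2).differentiableAt
  have hlg : DifferentiableOn ℂ (logDeriv g) (closedBall c r) := by
    intro z hz
    have hz' : z ∈ closedBall c r4 := closedBall_subset_closedBall (by linarith) hz
    exact ((hg4 z hz').deriv.div (hg4 z hz') (hgz4 z hz')).differentiableAt.differentiableWithinAt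
  have i3 : CircleIntegrable (logDeriv g) c r :=
    (hlg.continuousOn.mono sphere_subset_closedBall).circleIntegrable hr0.le
  have i4 : (∮ z in C(c, r), logDeriv g z) = 0 :=
    Complex.circleIntegral_eq_zero_of_differentiable_on_off_countable hr0.le Set.countable_empty
      hlg.continuousOn (fun z hz => by
        have hz1 := ball_subset_closedBall hz.1
        have hz' : z ∈ closedBall c r4 := closedBall_subset_closedBall (by linarith) hz1
        exact ((hg4 z hz').deriv.div (hg4 z hz') (hgz4 z hz')).differentiableAt)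
  have hint : (∮ z in C(c, r), logDeriv f z) =
      2 * Real.pi * I * (Multiset.card (s.filter (fun ρ => ‖ρ - c‖ < r)) : ℂ) := by
    rw [circleIntegral.integral_congr hr0.le heq, circleIntegral.integral_add i1 i3, i2, i4, add_zero]
  have hnorm : ‖∮ z in C(c, r), logDeriv f z‖ ≤ 2 * Real.pi * r * (1 / 8) :=
    circleIntegral.norm_integral_le_of_norm_le_const hr0.le hfl
  rw [hint, norm_mul, norm_mul, norm_mul, Complex.norm_I, mul_one, Complex.norm_ofNat, Complex.norm_real,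
    Real.norm_eq_abs, abs_of_pos Real.pi_pos, Complex.norm_natCast] at hnorm
  have hmem : c - (1 : ℝ) ∈ s := by
    by_contra hcon
    have h1 : c - ((1 : ℝ) : ℂ) ∈ closedBall c r4 := by
      rw [mem_closedBall, dist_eq_norm]
      have e : c - ((1 : ℝ) : ℂ) - c = -((1 : ℝ) : ℂ) := by ring
      rw [e, norm_neg, Complex.norm_real, Real.norm_eq_abs, abs_of_pos (by norm_num)]
      linarith
    have h2 : Pf s (c - ((1 : ℝ) : ℂ)) ≠ 0 := Pf_ne_zero fun ρ hρ e => hcon (by rw [e]; exact hρ)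
    rw [hfg] at hf0
    exact mul_ne_zero h2 (hgz4 _ h1) hf0
  have hcard : 1 ≤ Multiset.card (s.filter (fun ρ => ‖ρ - c‖ < r)) := by
    rw [Nat.one_le_iff_ne_zero, ne_eq, Multiset.card_eq_zero]
    intro e
    have h1 : c - ((1 : ℝ) : ℂ) ∈ s.filter (fun ρ => ‖ρ - c‖ < r) := by
      rw [Multiset.mem_filter]
      refine ⟨hmem, ?_⟩
      have e : c - ((1 : ℝ) : ℂ) - c = -((1 : ℝ) : ℂ) := by ring
      rw [e, norm_neg, Complex.norm_real, Real.norm_eq_abs, abs_of_pos (by norm_num)]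
      linarith
    rw [e] at h1
    exact Multiset.notMem_zero _ h1
  have hcard' : (1 : ℝ) ≤ (Multiset.card (s.filter (fun ρ => ‖ρ - c‖ < r)) : ℝ) := by exact_mod_cast hcard
  have hpi := Real.pi_pos
  have h1 : 2 * Real.pi * 1 ≤ 2 * Real.pi * (Multiset.card (s.filter (fun ρ => ‖ρ - c‖ < r)) : ℝ) := by gcongr
  have h2 : r ≤ 2 := by linarith
  nlinarith

end Pool.Agent.Zk1.BI
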