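import Pool.Agent.Zk1.BI.Core
import Pool.Agent.Zk1.BD.Core3

set_option autoImplicit false

/-!
# The local theorem for zeta, with the primes up to an arbitrary bound `X ≥ (log T)^B`
-/

namespace Pool.Agent.Zk1.BI

open Complex Filter Topology MeasureTheory Set Metric
open Pool.Agent.Zk1.DH (PP)
open Pool.Agent.Zk2.DH (PP_ne PP_diff PP_ana zeta_ana zeta_diff fR fR_apply fR_norm fR_summable zeta_eq)
open Pool.Agent.Zk1.BD (PS near num one_sub_le QQ QQ_ana QQ_order QQ_zero zero_re_lt near_finite)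

/-- a constant -/
noncomputable def Cr : ℝ := ∑' n : ℕ, 1 / (n : ℝ) ^ (6 / 5 : ℝ)

lemma Cr_summable : Summable fun n : ℕ => 1 / (n : ℝ) ^ (6 / 5 : ℝ) :=
  Real.summable_one_div_nat_rpow.mpr (by norm_num)

lemma Cr_nonneg : 0 ≤ Cr := tsum_nonneg fun n => by positivity

/-- `ζ / PP - 1` is small to the right of `6/5` -/
lemma rough65 (X : ℝ) (hX : 1 ≤ X) (s : ℂ) (hs : 6 / 5 ≤ s.re) :
    ‖riemannZeta s / PP X s - 1‖ ≤ Cr * X ^ (-(s.re - 6 / 5)) := by
  have hX0 : 0 < X := by linarith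
  have hP := PP_ne X s (by linarith)
  have h1 : riemannZeta s / PP X s = ∑' n, fR X s n := by
    rw [zeta_eq X (by linarith) s (by linarith), mul_div_cancel_left₀ _ hP]
  rw [h1]
  have hfs : Summable (fun n => fR X s n) := (fR_summable X s (by linarith)).of_norm
  have hS1 : HasSum (fun n => if n = 1 then fR X s n else 0) (fR X s 1) := by
    have := hasSum_ite_eq (1 : ℕ) (fR X s 1)
    refine this.congr_fun ?_ |> fun h => h
    intro n
    by_cases hn : n = 1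
    · rw [if_pos hn, if_pos hn, hn]
    · rw [if_neg hn, if_neg hn]
  have hS2 := hfs.hasSum.sub hS1
  have hbd : ∀ n : ℕ, ‖fR X s n - (if n = 1 then fR X s n else 0)‖ ≤
      X ^ (-(s.re - 6 / 5)) * (1 / (n : ℝ) ^ (6 / 5 : ℝ)) := by
    intro n
    by_cases hn : n = 1
    · rw [if_pos hn, sub_self, norm_zero]; positivity
    rw [if_neg hn, sub_zero]
    by_cases h0 : fR X s n = 0
    · rw [h0, norm_zero]; positivity
    have hn0 : n ≠ 0 := by
      intro h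
      apply h0
      rw [fR_apply, if_pos h]
    have hr : ∀ p ∈ n.primeFactors, X < (p : ℝ) := by
      by_contra hc
      apply h0
      rw [fR_apply, if_neg hn0, if_neg hc]
    have hnX : X < n := by
      have hp := Nat.minFac_prime hn
      have h2 := hr n.minFac (by
        rw [Nat.mem_primeFactors]
        exact ⟨hp, Nat.minFac_dvd n, hn0⟩)
      have h3 : n.minFac ≤ n := Nat.minFac_le (Nat.pos_of_ne_zero hn0)
      exact h2.trans_le (by exact_mod_cast h3)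
    have hnpos : (0 : ℝ) < n := hX0.trans hnX
    have h5 := fR_norm X s n (by linarith)
    refine h5.trans ?_
    have h6 : (n : ℝ) ^ s.re = (n : ℝ) ^ (s.re - 6 / 5) * (n : ℝ) ^ (6 / 5 : ℝ) := by
      rw [← Real.rpow_add hnpos]
      congr 1
      ring
    rw [h6, one_div, mul_inv, Real.rpow_neg hX0.le, one_div]
    refine mul_le_mul_of_nonneg_right ?_ (by positivity)
    apply inv_anti₀ (by positivity)
    exact Real.rpow_le_rpow hX0.le hnX.le (by linarith)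
  have hg : HasSum (fun n : ℕ => X ^ (-(s.re - 6 / 5)) * (1 / (n : ℝ) ^ (6 / 5 : ℝ)))
      (X ^ (-(s.re - 6 / 5)) * Cr) := Cr_summable.hasSum.mul_left _
  have h7 := tsum_of_norm_bounded hg hbd
  rw [hS2.tsum_eq, map_one] at h7
  rw [mul_comm]
  exact h7

/-- a constant -/
noncomputable def Ce (e : ℝ) : ℝ := ∑' n : ℕ, 1 / (n : ℝ) ^ (1 + 2 * e)

lemma Ce_nonneg (e : ℝ) : 0 ≤ Ce e := tsum_nonneg fun n => by positivity

lemma sum_sq_le (X : ℝ) {e : ℝ} (he : 0 < e) {s : ℂ} (hs : 1 / 2 + e ≤ s.re) :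
    ∑ p ∈ (Finset.range (⌊X⌋₊ + 1)).filter Nat.Prime, ‖(p : ℂ) ^ (-s)‖ ^ 2 ≤ Ce e := by
  have hsum : Summable fun n : ℕ => 1 / (n : ℝ) ^ (1 + 2 * e) :=
    Real.summable_one_div_nat_rpow.mpr (by linarith)
  refine le_trans ?_ (hsum.sum_le_tsum ((Finset.range (⌊X⌋₊ + 1)).filter Nat.Prime)
    (fun n _ => by positivity))
  refine Finset.sum_le_sum fun p hp => ?_
  have hp' : p.Prime := (Finset.mem_filter.1 hp).2
  have hp0 : 0 < p := hp'.pos
  have hp1 : (1 : ℝ) ≤ p := by exact_mod_cast hp'.one_le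
  rw [Complex.norm_natCast_cpow_of_pos hp0, Complex.neg_re, ← Real.rpow_natCast, ← Real.rpow_mul (by positivity),
    one_div, ← Real.rpow_neg (by positivity)]
  apply Real.rpow_le_rpow_of_exponent_le hp1
  push_cast
  linarith

lemma inv_PP_le (X : ℝ) {e : ℝ} (he : 0 < e) {s : ℂ} (hs : 1 / 2 + e ≤ s.re) :
    ‖(PP X s)⁻¹‖ ≤ Real.exp (‖PS X s‖ + Ce e) := by
  unfold PP
  rw [← Finset.prod_inv_distrib, norm_prod]
  have h1 : ∀ p ∈ (Finset.range (⌊X⌋₊ + 1)).filter Nat.Prime, ‖(1 - (p : ℂ) ^ (-s))⁻¹⁻¹‖ ≤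
      Real.exp (-((p : ℂ) ^ (-s)).re + ‖(p : ℂ) ^ (-s)‖ ^ 2 / 2) := by
    intro p _
    rw [inv_inv]
    exact one_sub_le _
  refine (Finset.prod_le_prod (fun _ _ => norm_nonneg _) h1).trans ?_
  rw [← Real.exp_sum]
  apply Real.exp_le_exp.2
  rw [Finset.sum_add_distrib, Finset.sum_neg_distrib, ← Finset.sum_div]
  have h2 : ∑ p ∈ (Finset.range (⌊X⌋₊ + 1)).filter Nat.Prime, ((p : ℂ) ^ (-s)).re = (PS X s).re := by
    unfold PS
    rw [Complex.re_sum]
  rw [h2]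
  have h3 := sum_sq_le X he hs
  have h4 := Complex.abs_re_le_norm (PS X s)
  have h5 := neg_abs_le (PS X s).re
  have h6 : 0 ≤ ∑ p ∈ (Finset.range (⌊X⌋₊ + 1)).filter Nat.Prime, ‖(p : ℂ) ^ (-s)‖ ^ 2 :=
    Finset.sum_nonneg fun _ _ => by positivity
  linarith

/-- the conditions on `X` -/
lemma X_cond (δ K x0 : ℝ) (hδ : 0 < δ) : ∃ X0 : ℝ, 2 ≤ X0 ∧ ∀ X : ℝ, X0 ≤ X → x0 ≤ Real.log X ∧
    K * X ^ (δ / 2) ≤ X ^ δ ∧ Cr * X ^ (-(3 / 16 : ℝ)) ≤ 1 / 2 ∧
    40 * (Cr + 1) * X ^ (-(3 / 16 : ℝ)) ≤ X ^ (-(1 / 8 : ℝ)) := by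
  have t1 : Tendsto (fun X : ℝ => X ^ (δ / 2)) atTop atTop := tendsto_rpow_atTop (by positivity)
  have t2 : Tendsto (fun X : ℝ => X ^ (1 / 16 : ℝ)) atTop atTop := tendsto_rpow_atTop (by norm_num)
  have e0 := Real.tendsto_log_atTop.eventually_ge_atTop x0
  have e1 := t1.eventually_ge_atTop K
  have e2 := t2.eventually_ge_atTop (40 * (Cr + 1))
  obtain ⟨X1, hX1⟩ := eventually_atTop.1 ((e0.and e1).and e2)
  have hCr := Cr_nonneg
  refine ⟨max X1 2, le_max_right _ _, fun X hX => ?_⟩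
  obtain ⟨⟨g0, g1⟩, g2⟩ := hX1 X ((le_max_left _ _).trans hX)
  have hX2 : 2 ≤ X := (le_max_right _ _).trans hX
  have hX0 : 0 < X := by linarith
  have p1 : 0 < X ^ (δ / 2) := Real.rpow_pos_of_pos hX0 _
  have p2 : 0 < X ^ (-(3 / 16 : ℝ)) := Real.rpow_pos_of_pos hX0 _
  have q1 : X ^ δ = X ^ (δ / 2) * X ^ (δ / 2) := by
    rw [← Real.rpow_add hX0]; congr 1; ring
  have q2 : X ^ (-(1 / 8 : ℝ)) = X ^ (1 / 16 : ℝ) * X ^ (-(3 / 16 : ℝ)) := by
    rw [← Real.rpow_add hX0]; congr 1; norm_num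
  have q3 : X ^ (-(1 / 8 : ℝ)) ≤ 1 := Real.rpow_le_one_of_one_le_of_nonpos (by linarith) (by norm_num)
  have q4 : 40 * (Cr + 1) * X ^ (-(3 / 16 : ℝ)) ≤ X ^ (-(1 / 8 : ℝ)) := by
    rw [q2]
    exact mul_le_mul_of_nonneg_right g2 p2.le
  refine ⟨g0, ?_, ?_, q4⟩
  · rw [q1]
    exact mul_le_mul_of_nonneg_right g1 p1.le
  · have q5 : 40 * (Cr * X ^ (-(3 / 16 : ℝ))) + 40 * X ^ (-(3 / 16 : ℝ)) ≤ 1 := by linarith
    linarith

/-- The local theorem. -/
theorem local_thm (ε : ℝ) (hε : 0 < ε) (hε1 : ε ≤ 1 / 20) : ∃ η κ B X0 : ℝ, 0 < η ∧ η ≤ 1 ∧ 0 < κ ∧ 1 ≤ B ∧ 2 ≤ X0 ∧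
    ∀ (X T : ℝ) (ρ : ℂ), X0 ≤ X → 3 ≤ T → (Real.log T) ^ B ≤ X → riemannZeta ρ = 0 → 1 / 2 + 2 * ε ≤ ρ.re →
    T ≤ ρ.im → ρ.im ≤ 2 * T → (num (near ε ρ) : ℝ) < κ * Real.log X →
    ∃ z : ℂ, ρ.re - ε ≤ z.re ∧ z.re ≤ 4 ∧ |z.im - ρ.im| ≤ 2 ∧ X ^ η ≤ ‖PS X z‖ := by
  obtain ⟨δ, κ, X1, hδ, hδ1, hκ, hcore⟩ := core1 ε hε hε1
  obtain ⟨C, A, hC, hA, hgr⟩ := H370.good_zeta.growth
  obtain ⟨K, hK⟩ : ∃ K : ℝ, K = |Real.log (C * 3 ^ A)| + Ce ε + A + 1 := ⟨_, rfl⟩
  obtain ⟨X0, hX02, hX0⟩ := X_cond δ K X1 hδ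
  have hδ2 : 0 < δ / 2 := by positivity
  refine ⟨δ / 2, κ, max 1 (2 / δ), X0, hδ2, by linarith, hκ, le_max_left _ _, hX02, ?_⟩
  intro X T ρ hX hT hTX hρ0 hρre hρi1 hρi2 hnum
  by_contra hcon
  push Not at hcon
  obtain ⟨c1, c2, c3, c4⟩ := hX0 X hX
  have hX2 : 2 ≤ X := hX02.trans hX
  have hXpos : 0 < X := by linarith
  have hX1' : 1 ≤ X := by linarith
  have hT0 : 0 < T := by linarith
  have hρlt := zero_re_lt hρ0
  have hlogT : 1 ≤ Real.log T := by
    rw [Real.le_log_iff_exp_le hT0]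
    have := Real.exp_one_lt_d9
    linarith
  have hlogX : Real.log T ≤ X ^ (δ / 2) := by
    have h1 : (Real.log T) ^ (2 / δ) ≤ X :=
      (Real.rpow_le_rpow_of_exponent_le hlogT (le_max_right _ _)).trans hTX
    have h2 : ((Real.log T) ^ (2 / δ)) ^ (δ / 2) ≤ X ^ (δ / 2) :=
      Real.rpow_le_rpow (by positivity) h1 hδ2.le
    rw [← Real.rpow_mul (by linarith)] at h2
    have e1 : 2 / δ * (δ / 2) = 1 := by field_simp
    rwa [e1, Real.rpow_one] at h2
  set x : ℝ := Real.log X with hx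
  have hXx : X = Real.exp x := (Real.exp_log hXpos).symm
  have hXδ : X ^ δ = Real.exp (δ * x) := by
    rw [Real.rpow_def_of_pos hXpos, mul_comm]
  set c : ℂ := ρ + ((1 : ℝ) : ℂ) with hc
  have hcre : c.re = ρ.re + 1 := by rw [hc, Complex.add_re, Complex.ofReal_re]
  have hcim : c.im = ρ.im := by rw [hc, Complex.add_im, Complex.ofReal_im, add_zero]
  have hball : ∀ z ∈ closedBall c (1 + ε), ρ.re - ε ≤ z.re ∧ z.re ≤ 4 ∧ |z.im - ρ.im| ≤ 1 + ε := by
    intro z hz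
    rw [mem_closedBall, dist_eq_norm] at hz
    have h1 := Complex.abs_re_le_norm (z - c)
    have h2 := Complex.abs_im_le_norm (z - c)
    rw [Complex.sub_re, hcre] at h1
    rw [Complex.sub_im, hcim] at h2
    obtain ⟨h3, h4⟩ := abs_le.1 (h1.trans hz)
    exact ⟨by linarith, by linarith, h2.trans hz⟩
  have him : ∀ z ∈ closedBall c (1 + ε), 1 ≤ z.im ∧ z.im ≤ 3 * T := by
    intro z hz
    obtain ⟨h1, h2⟩ := abs_le.1 (hball z hz).2.2
    constructor <;> linarith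
  have hne1 : ∀ z ∈ closedBall c (1 + ε), z ≠ 1 := by
    intro z hz e
    have := (him z hz).1
    rw [e, Complex.one_im] at this
    linarith
  have hpos : ∀ z ∈ closedBall c (1 + ε), 1 / 2 + ε ≤ z.re := fun z hz => by
    have := (hball z hz).1
    linarith
  have hCe := Ce_nonneg ε
  have hPSb : ∀ z ∈ closedBall c (1 + ε), ‖PS X z‖ ≤ X ^ (δ / 2) := by
    intro z hz
    obtain ⟨h1, h2, h3⟩ := hball z hz
    exact (hcon z h1 h2 (h3.trans (by linarith))).le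
  have hfb : ∀ z ∈ closedBall c (1 + ε), ‖QQ X z‖ ≤ Real.exp (Real.exp (δ * x)) := by
    intro z hz
    obtain ⟨hi1, hi2⟩ := him z hz
    have hre := hpos z hz
    have hζ : ‖riemannZeta z‖ ≤ (C * 3 ^ A) * T ^ A := by
      have h5 := hgr z (by linarith) (hball z hz).2.1 hi1
      have h6 : z.im ^ A ≤ (3 * T) ^ A := Real.rpow_le_rpow (by linarith) hi2 hA.le
      rw [Real.mul_rpow (by norm_num) hT0.le] at h6
      calc ‖riemannZeta z‖ ≤ C * z.im ^ A := h5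
        _ ≤ C * (3 ^ A * T ^ A) := by gcongr
        _ = (C * 3 ^ A) * T ^ A := by ring
    have h7 := inv_PP_le X hε hre
    have h8 := hPSb z hz
    have hK0 : 0 < C * 3 ^ A := by positivity
    rw [← hXδ]
    calc ‖QQ X z‖ = ‖riemannZeta z‖ * ‖(PP X z)⁻¹‖ := by
          unfold QQ
          rw [div_eq_mul_inv, norm_mul]
      _ ≤ ((C * 3 ^ A) * T ^ A) * Real.exp (‖PS X z‖ + Ce ε) := by gcongr
      _ ≤ ((C * 3 ^ A) * T ^ A) * Real.exp (X ^ (δ / 2) + Ce ε) := by gcongr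
      _ = Real.exp (Real.log (C * 3 ^ A) + A * Real.log T + (X ^ (δ / 2) + Ce ε)) := by
          have e1 : T ^ A = Real.exp (A * Real.log T) := by
            rw [Real.rpow_def_of_pos hT0]; congr 1; ring
          rw [e1, Real.exp_add (Real.log (C * 3 ^ A) + A * Real.log T), Real.exp_add (Real.log (C * 3 ^ A)), Real.exp_log hK0]
      _ ≤ Real.exp (X ^ δ) := by
          apply Real.exp_le_exp.2
          refine le_trans ?_ c2
          have h9 : 1 ≤ X ^ (δ / 2) := Real.one_le_rpow hX1' hδ2.le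
          have h10 : Real.log (C * 3 ^ A) ≤ |Real.log (C * 3 ^ A)| * X ^ (δ / 2) :=
            (le_abs_self _).trans (le_mul_of_one_le_right (abs_nonneg _) h9)
          have h11 : A * Real.log T ≤ A * X ^ (δ / 2) := mul_le_mul_of_nonneg_left hlogX hA.le
          have h12 : Ce ε ≤ Ce ε * X ^ (δ / 2) := le_mul_of_one_le_right hCe h9
          rw [hK]
          linarith
  have hana : AnalyticOnNhd ℂ (QQ X) (closedBall c (1 + ε)) := fun z hz =>
    QQ_ana X (by linarith [hpos z hz]) (hne1 z hz)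
  -- near the centre
  have hQ1 : ∀ z : ℂ, 6 / 5 + 3 / 16 ≤ z.re → ‖QQ X z - 1‖ ≤ Cr * X ^ (-(3 / 16 : ℝ)) := by
    intro z hz
    refine (rough65 X hX1' z (by linarith)).trans ?_
    apply mul_le_mul_of_nonneg_left _ Cr_nonneg
    apply Real.rpow_le_rpow_of_exponent_le hX1'
    linarith
  have hQh : ∀ z : ℂ, 6 / 5 + 3 / 16 ≤ z.re → 1 / 2 ≤ ‖QQ X z‖ := by
    intro z hz
    have h1 := (hQ1 z hz).trans c3
    have h2 : (1 : ℝ) ≤ ‖QQ X z‖ + ‖QQ X z - 1‖ := by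
      calc (1 : ℝ) = ‖(1 : ℂ)‖ := by rw [norm_one]
        _ = ‖QQ X z - (QQ X z - 1)‖ := by congr 1; ring
        _ ≤ _ := norm_sub_le _ _
    linarith
  have hfc : 1 / 2 ≤ ‖QQ X c‖ := hQh c (by rw [hcre]; linarith)
  have hfs : ∀ z ∈ closedBall c (1 / 16), QQ X z ≠ 0 ∧ ‖logDeriv (QQ X) z‖ ≤ Real.exp (-(x / 8)) := by
    intro z hz
    rw [mem_closedBall, dist_eq_norm] at hz
    have h1 := Complex.abs_re_le_norm (z - c)
    rw [Complex.sub_re, hcre] at h1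
    obtain ⟨h3, h4⟩ := abs_le.1 (h1.trans hz)
    have hzr : 3 / 2 - 1 / 16 ≤ z.re := by linarith
    have h5 := hQh z (by linarith)
    have h6 : QQ X z ≠ 0 := by
      intro e
      rw [e, norm_zero] at h5
      linarith
    refine ⟨h6, ?_⟩
    have hd : DifferentiableOn ℂ (fun w => QQ X w - 1) (closedBall z (1 / 20)) := by
      intro w hw
      rw [mem_closedBall, dist_eq_norm] at hw
      have h7 := Complex.abs_re_le_norm (w - z)
      rw [Complex.sub_re] at h7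
      obtain ⟨h8, h9⟩ := abs_le.1 (h7.trans hw)
      have hw1 : w ≠ 1 := by
        intro e
        rw [e, Complex.one_re] at h8
        linarith
      exact ((QQ_ana X (by linarith) hw1).differentiableAt.sub_const 1).differentiableWithinAt
    have h7 : ‖deriv (fun w => QQ X w - 1) z‖ ≤ Cr * X ^ (-(3 / 16 : ℝ)) / (1 / 20) := by
      apply Complex.norm_deriv_le_of_forall_mem_sphere_norm_le (by norm_num)
      · apply DifferentiableOn.diffContOnCl
        rw [closure_ball _ (by norm_num)]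
        exact hd
      · intro w hw
        rw [mem_sphere, dist_eq_norm] at hw
        apply hQ1
        have h7 := Complex.abs_re_le_norm (w - z)
        rw [Complex.sub_re] at h7
        obtain ⟨h8, h9⟩ := abs_le.1 (h7.trans hw.le)
        linarith
    rw [deriv_sub_const] at h7
    rw [logDeriv_apply, norm_div]
    have p2 : 0 < X ^ (-(3 / 16 : ℝ)) := Real.rpow_pos_of_pos hXpos _
    have hCr := Cr_nonneg
    calc ‖deriv (QQ X) z‖ / ‖QQ X z‖ ≤ (Cr * X ^ (-(3 / 16 : ℝ)) / (1 / 20)) / (1 / 2) := by gcongr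
      _ = 40 * Cr * X ^ (-(3 / 16 : ℝ)) := by ring
      _ ≤ 40 * (Cr + 1) * X ^ (-(3 / 16 : ℝ)) := by gcongr; linarith
      _ ≤ X ^ (-(1 / 8 : ℝ)) := c4
      _ = Real.exp (-(x / 8)) := by
          rw [Real.rpow_def_of_pos hXpos]; congr 1; rw [hx]; ring
  have hf0 : QQ X (c - ((1 : ℝ) : ℂ)) = 0 := by
    have e : c - ((1 : ℝ) : ℂ) = ρ := by rw [hc]; ring
    rw [e]
    unfold QQ
    rw [hρ0, zero_div]
  obtain ⟨S, hS, hSx⟩ := hcore x (QQ X) c c1 hana hfb hfc hfs hf0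
  -- comparison
  have hfin : (near ε ρ).Finite := by
    refine (H370.zset_finite H370.good_zeta (ρ.im - 2) (ρ.im + 2) (by linarith)).subset ?_
    rintro s ⟨a1, a2, a3⟩
    obtain ⟨b1, b2⟩ := abs_le.1 a3
    exact ⟨by linarith, zero_re_lt a1, by linarith, by linarith, a1⟩
  have hsub : S ⊆ hfin.toFinset := by
    intro z hz
    rw [Set.Finite.mem_toFinset]
    obtain ⟨h1, h2⟩ := hS z hz
    have hzr := hpos z h1
    have hz0 := QQ_zero X (by linarith) h2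
    have hzlt := zero_re_lt hz0
    refine ⟨hz0, (hball z h1).1, ?_⟩
    rw [mem_closedBall, dist_eq_norm] at h1
    have h3 : ‖z - c‖ ^ 2 ≤ (1 + ε) ^ 2 := pow_le_pow_left₀ (norm_nonneg _) h1 2
    rw [← Complex.normSq_eq_norm_sq, Complex.normSq_apply, Complex.sub_re, Complex.sub_im, hcre, hcim] at h3
    have h4 : (1 / 2) ^ 2 ≤ (z.re - (ρ.re + 1)) * (z.re - (ρ.re + 1)) := by nlinarith
    have h5 : (1 + ε) ^ 2 ≤ (21 / 20) ^ 2 := by gcongr; linarith
    rw [abs_le_one_iff_mul_self_le_one]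
    linarith
  have h6 : (∑ z ∈ S, (analyticOrderNatAt (QQ X) z : ℝ)) ≤ (num (near ε ρ) : ℝ) := by
    unfold num
    rw [finsum_mem_eq_finite_toFinset_sum _ hfin]
    push_cast
    refine le_trans (le_of_eq ?_) (Finset.sum_le_sum_of_subset_of_nonneg hsub fun _ _ _ => by positivity)
    refine Finset.sum_congr rfl fun z hz => ?_
    obtain ⟨h1, h2⟩ := hS z hz
    rw [QQ_order X (by linarith [hpos z h1]) (hne1 z h1)]
  linarith

end Pool.Agent.Zk1.BI
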