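import Pool.Agent.Zk1.BI.Bad
import Pool.Agent.Zk1.BI.Loc
import Pool.Agent.Zk1.BD.Fin

/-!
# Density in intervals of polylogarithmic length, outside clusters: assembly
-/

set_option autoImplicit false

namespace Pool.Agent.Zk1.BI

open Complex Finset
open Pool.Agent.Zk1.BD (PS DE near num num_cnt near_fin num_near_mono)

/-- The zeros with `β ≥ σ`, `T < γ ≤ T + H`, near which there are fewer than `c log H` zeros with `β' ≥ β - ε`, `|γ' - γ| ≤ 1`. -/
def sparse (c ε σ T H : ℝ) : Set ℂ := {ρ : ℂ | riemannZeta ρ = 0 ∧ σ ≤ ρ.re ∧ T < ρ.im ∧ ρ.im ≤ T + H ∧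
  (num (near ε ρ) : ℝ) < c * Real.log H}

lemma sparse_sub_zeros {c ε σ T H : ℝ} (hσ : 1 / 2 ≤ σ) (hT : 0 ≤ T) : sparse c ε σ T H ⊆ DH31.zeros (1 / 2) (T + H) :=
  fun _ h => ⟨h.1, hσ.trans h.2.1, hT.trans_lt h.2.2.1, h.2.2.2.1⟩

lemma sparse_finite {c ε σ T H : ℝ} : (sparse c ε σ T H).Finite :=
  (DH31.finite_region σ T (T + H)).subset fun _ h => ⟨h.1, h.2.1, h.2.2.1.le, h.2.2.2.1⟩

lemma sparse_mono {c c' ε σ σ' T H : ℝ} (hH : 1 ≤ H) (hc : c ≤ c') (hσ : σ' ≤ σ) :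
    sparse c ε σ T H ⊆ sparse c' ε σ' T H := by
  rintro ρ ⟨h1, h2, h3, h4, h5⟩
  exact ⟨h1, hσ.trans h2, h3, h4, h5.trans_le (mul_le_mul_of_nonneg_right hc (Real.log_nonneg hH))⟩

lemma card_interval (L : Finset ℤ) (V U : ℝ) (hU : 0 ≤ U) (h : ∀ m ∈ L, V ≤ m ∧ (m : ℝ) ≤ V + U) :
    (L.card : ℝ) ≤ U + 1 := by
  have hsub : L ⊆ Finset.Icc ⌈V⌉ ⌊V + U⌋ := by
    intro m hm
    obtain ⟨h1, h2⟩ := h m hm
    rw [Finset.mem_Icc]
    exact ⟨Int.ceil_le.2 h1, Int.le_floor.2 h2⟩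
  have h2 := Finset.card_le_card hsub
  rw [Int.card_Icc] at h2
  have h3 : ((⌊V + U⌋ + 1 - ⌈V⌉).toNat : ℝ) ≤ U + 1 := by
    have h4 : ((⌊V + U⌋ + 1 - ⌈V⌉).toNat : ℤ) = max (⌊V + U⌋ + 1 - ⌈V⌉) 0 := by
      rw [Int.toNat_eq_max]
    have h5 : (((⌊V + U⌋ + 1 - ⌈V⌉).toNat : ℤ) : ℝ) ≤ U + 1 := by
      rw [h4]
      push_cast
      apply max_le _ (by linarith)
      have h6 := Int.floor_le (V + U)
      have h7 := Int.le_ceil V
      linarith
    exact_mod_cast h5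
  exact le_trans (by exact_mod_cast h2) h3

lemma DE_nonneg {k : ℕ} {σ : ℝ} (hk : 1 ≤ k) (hσ : 1 - (1 / 2) ^ k ≤ σ) (hσ1 : σ ≤ 1) : 0 ≤ DE k σ := by
  have hM0 : (0 : ℝ) < 2 ^ k := by positivity
  have hx1 : 2 - 2 * σ ≤ 2 / 2 ^ k := by
    have h1 : (1 / 2 : ℝ) ^ k = 1 / 2 ^ k := by rw [div_pow, one_pow]
    rw [h1] at hσ
    have h2 : (2 : ℝ) / 2 ^ k = 2 * (1 / 2 ^ k) := by ring
    rw [h2]
    linarith
  obtain ⟨-, -, -, -, g3, -, -⟩ := exponents hk one_pos le_rfl (show (0 : ℝ) < 1 / 100 by norm_num)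
    le_rfl (show 0 ≤ 2 - 2 * σ by linarith) hx1 rfl
  unfold DE
  exact div_nonneg (by linarith) (by linarith)

/-- the bound for one `k` -/
theorem fin_k (k : ℕ) (ε ε1 : ℝ) (hk : 1 ≤ k) (hε : 0 < ε) (hεone : ε ≤ 1) (hε1 : 0 < ε1) : ∃ c B C : ℝ,
    0 < c ∧ 1 ≤ B ∧ 0 < C ∧ ∀ σ T H : ℝ, 1 - (1 / 2) ^ k ≤ σ → σ ≤ 1 → 3 ≤ T → 2 ≤ H → (Real.log T) ^ B ≤ H →
      H ≤ T → (num (sparse c ε1 σ T H) : ℝ) ≤ C * H ^ (DE k σ + ε) := by
  classical
  obtain ⟨δ, a1, hδ, ha1, hbad⟩ := bad k (ε / 2) hk (by positivity) (by linarith)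
  obtain ⟨e, he⟩ : ∃ e : ℝ, e = min (min δ ε1) (ε / 40) := ⟨_, rfl⟩
  have he0 : 0 < e := by rw [he]; exact lt_min (lt_min hδ hε1) (by positivity)
  have he40 : e ≤ ε / 40 := by rw [he]; exact min_le_right _ _
  have heδ : e ≤ δ := by rw [he]; exact (min_le_left _ _).trans (min_le_left _ _)
  have heε : e ≤ ε1 := by rw [he]; exact (min_le_left _ _).trans (min_le_right _ _)
  obtain ⟨η, κ, B0, X0, hη, hη1, hκ, hB0, hX0, hloc⟩ := local_thm e he0 (by linarith)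
  obtain ⟨a, ha⟩ : ∃ a : ℝ, a = min a1 1 := ⟨_, rfl⟩
  have ha0 : 0 < a := by rw [ha]; exact lt_min ha1 one_pos
  have haa1 : a ≤ a1 := by rw [ha]; exact min_le_left _ _
  obtain ⟨C, hC, hbad⟩ := hbad a η ha0 haa1 hη hη1
  obtain ⟨C3, hC3, hwin⟩ := DH31.windows_to_count
  obtain ⟨B, hB⟩ : ∃ B : ℝ, B = max (B0 / a) (4 / ε) := ⟨_, rfl⟩
  have hBa : B0 / a ≤ B := by rw [hB]; exact le_max_left _ _
  have hBε : 4 / ε ≤ B := by rw [hB]; exact le_max_right _ _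
  have hB1 : 1 ≤ B := by
    refine le_trans ?_ hBε
    rw [le_div_iff₀ hε]
    linarith
  obtain ⟨H0, hH0⟩ : ∃ H0 : ℝ, H0 = X0 ^ (1 / a) := ⟨_, rfl⟩
  obtain ⟨C4, hC4⟩ : ∃ C4 : ℝ, C4 = DH31.cnt (DH31.zeros (1 / 2) (2 * Real.exp H0)) := ⟨_, rfl⟩
  have hC40 : 0 ≤ C4 := by rw [hC4]; exact Nat.cast_nonneg _
  refine ⟨κ * a, B, C3 + (2 * C + 3) * (C3 * 2) + C4, by positivity, hB1, by positivity, ?_⟩
  intro σ T H hσ hσ1 hT hH2 hTH hHT
  have hDE0 := DE_nonneg hk hσ hσ1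
  have hT0 : 0 < T := by linarith
  have hHpos : 0 < H := by linarith
  have hH1 : 1 ≤ H := by linarith
  have hlogT : 1 ≤ Real.log T := by
    rw [Real.le_log_iff_exp_le hT0]
    have := Real.exp_one_lt_d9
    linarith
  have hσ12 : 1 / 2 ≤ σ := by
    have h1 : (1 / 2 : ℝ) ^ k ≤ (1 / 2) ^ 1 := pow_le_pow_of_le_one (by norm_num) (by norm_num) hk
    norm_num at h1 hσ
    linarith
  set A : Set ℂ := sparse (κ * a) ε1 σ T H with hA
  have hAsub : A ⊆ DH31.zeros (1 / 2) (2 * T) := by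
    intro s hs
    have h1 := sparse_sub_zeros hσ12 hT0.le hs
    exact ⟨h1.1, h1.2.1, h1.2.2.1, h1.2.2.2.trans (by linarith)⟩
  have hPe1 : 1 ≤ H ^ (DE k σ + ε) := Real.one_le_rpow hH1 (by linarith)
  rw [num_cnt]
  have hlogB : Real.log T ≤ (Real.log T) ^ B := by
    calc Real.log T = (Real.log T) ^ (1 : ℝ) := (Real.rpow_one _).symm
      _ ≤ (Real.log T) ^ B := Real.rpow_le_rpow_of_exponent_le hlogT hB1
  rcases lt_or_ge H H0 with hHH | hHH
  · -- small H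
    have h1 : T ≤ Real.exp H0 := by
      rw [← Real.log_le_iff_le_exp hT0]
      linarith
    have h2 : DH31.cnt A ≤ DH31.cnt (DH31.zeros (1 / 2) (2 * Real.exp H0)) := by
      apply DH31.cnt_mono (DH31.zeros_finite _ _)
      intro s hs
      have := hAsub hs
      exact ⟨this.1, this.2.1, this.2.2.1, this.2.2.2.trans (by linarith)⟩
    have h3 : (DH31.cnt A : ℝ) ≤ C4 := by
      rw [hC4]
      exact_mod_cast h2
    have h4 : 0 ≤ C3 + (2 * C + 3) * (C3 * 2) := by positivity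
    calc (DH31.cnt A : ℝ) ≤ C4 * 1 := by linarith
      _ ≤ _ := mul_le_mul (by linarith) hPe1 (by norm_num) (by positivity)
  -- the integers below ordinates of sparse zeros
  set Mf : Finset ℕ := (Finset.range (⌈2 * T⌉₊ + 1)).filter (fun n => ∃ ρ ∈ A, (n : ℝ) < ρ.im ∧ ρ.im ≤ n + 1) with hMf
  set L : Finset ℤ := Mf.image (fun n : ℕ => (n : ℤ)) with hL
  have hLcard : L.card = Mf.card := Finset.card_image_of_injective _ (fun x y h => by exact_mod_cast h)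
  have hLm : ∀ m ∈ L, T - 1 ≤ m ∧ (m : ℝ) ≤ (T - 1) + (H + 1) ∧ ∃ ρ ∈ A, (m : ℝ) < ρ.im ∧ ρ.im ≤ m + 1 := by
    intro m hm
    rw [hL, Finset.mem_image] at hm
    obtain ⟨n, hn, rfl⟩ := hm
    rw [hMf, Finset.mem_filter] at hn
    obtain ⟨-, ρ, hρ, h1, h2⟩ := hn
    have h3 := hρ.2.2.1
    have h4 := hρ.2.2.2.1
    push_cast
    exact ⟨by linarith, by linarith, ρ, hρ, h1, h2⟩
  have hP : 0 < H ^ (DE k σ + ε / 2) := Real.rpow_pos_of_pos hHpos _
  have hP1 : 1 ≤ H ^ (DE k σ + ε / 2) := Real.one_le_rpow hH1 (by linarith)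
  have hcardL : (L.card : ℝ) ≤ (2 * C + 3) * H ^ (DE k σ + ε / 2) := by
    rcases lt_or_ge σ (1 / 2 + ε / 16) with hσs | hσb
    · have h1 := card_interval L (T - 1) (H + 1) (by linarith) fun m hm => ⟨(hLm m hm).1, (hLm m hm).2.1⟩
      have hk1 : k = 1 := by
        by_contra hne
        have h2 : 2 ≤ k := by omega
        have h3 : (1 / 2 : ℝ) ^ k ≤ (1 / 2) ^ 2 := pow_le_pow_of_le_one (by norm_num) (by norm_num) h2
        norm_num at h3 hσ
        linarith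
      have h4 : DE k σ = 2 * (1 - σ) := by
        rw [hk1]
        unfold DE
        push_cast
        norm_num
      have h5 : H ≤ H ^ (DE k σ + ε / 2) := by
        calc H = H ^ (1 : ℝ) := (Real.rpow_one _).symm
          _ ≤ _ := by
            apply Real.rpow_le_rpow_of_exponent_le hH1
            rw [h4]
            linarith
      have h6 : (L.card : ℝ) ≤ 3 * H := by linarith
      nlinarith
    · -- the large values
      have hz : ∀ m ∈ L, ∃ z : ℂ, σ - δ ≤ z.re ∧ z.re ≤ 4 ∧ |z.im - m| ≤ 3 ∧ H ^ (η * a) ≤ ‖PS (H ^ a) z‖ := by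
        intro m hm
        obtain ⟨m1, m2, ρ, hρ, h1, h2⟩ := hLm m hm
        have hXa : X0 ≤ H ^ a := by
          have h3 : (X0 ^ (1 / a)) ^ a ≤ H ^ a := Real.rpow_le_rpow (by positivity) (by rw [← hH0]; exact hHH) ha0.le
          rwa [← Real.rpow_mul (by linarith), one_div_mul_cancel ha0.ne', Real.rpow_one] at h3
        have hTB : (Real.log T) ^ B0 ≤ H ^ a := by
          have h3 : ((Real.log T) ^ B) ^ a ≤ H ^ a := Real.rpow_le_rpow (by positivity) hTH ha0.le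
          refine le_trans ?_ h3
          rw [← Real.rpow_mul (by linarith)]
          apply Real.rpow_le_rpow_of_exponent_le hlogT
          rwa [div_le_iff₀ ha0] at hBa
        have h5 := hρ.2.1
        obtain ⟨z, z1, z2, z3, z4⟩ := hloc (H ^ a) T ρ hXa hT hTB hρ.1 (by linarith) hρ.2.2.1.le
          (hρ.2.2.2.1.trans (by linarith)) (by
            have e1 : (num (near e ρ) : ℝ) ≤ num (near ε1 ρ) := by
              exact_mod_cast num_near_mono heε ρ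
            have e2 := hρ.2.2.2.2
            rw [Real.log_rpow hHpos]
            calc (num (near e ρ) : ℝ) ≤ num (near ε1 ρ) := e1
              _ < κ * a * Real.log H := e2
              _ = κ * (a * Real.log H) := by ring)
        refine ⟨z, by linarith, z2, ?_, ?_⟩
        · have z3' := abs_le.1 z3
          rw [abs_le]
          constructor <;> linarith
        · rwa [← Real.rpow_mul hHpos.le, mul_comm a η] at z4
      set L1 : Finset ℤ := L.filter (fun m => (m : ℝ) ≤ (T - 1) + H) with hL1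
      set L2 : Finset ℤ := L.filter (fun m => ¬ (m : ℝ) ≤ (T - 1) + H) with hL2
      have h1 := hbad H (T - 1) σ L1 hH2 hσ (by linarith) hσ1 (by
        intro m hm
        obtain ⟨g1, g2⟩ := Finset.mem_filter.1 hm
        exact ⟨(hLm m g1).1, g2, hz m g1⟩)
      have h2 := hbad H (T - 1 + H) σ L2 hH2 hσ (by linarith) hσ1 (by
        intro m hm
        obtain ⟨g1, g2⟩ := Finset.mem_filter.1 hm
        push Not at g2
        have g3 := (hLm m g1).2.1
        exact ⟨g2.le, by linarith, hz m g1⟩)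
      have h3 : L.card = L1.card + L2.card := (Finset.card_filter_add_card_filter_not (s := L) _).symm
      rw [h3]
      push_cast
      linarith
  -- windows
  have hcnt := hwin (2 * T) (by linarith) A hAsub Mf (by
    intro ρ hρ hρ3
    have hρ0 : 0 < ρ.im := by linarith
    have h1 : 0 < ⌈ρ.im⌉₊ := Nat.ceil_pos.2 hρ0
    have h2 := Nat.le_ceil ρ.im
    have h3 := Nat.ceil_lt_add_one hρ0.le
    have h4 : ((⌈ρ.im⌉₊ - 1 : ℕ) : ℝ) = (⌈ρ.im⌉₊ : ℝ) - 1 := by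
      rw [Nat.cast_sub h1]
      push_cast
      ring
    refine ⟨⌈ρ.im⌉₊ - 1, ?_, by rw [h4]; linarith, by rw [h4]; linarith⟩
    rw [hMf, Finset.mem_filter, Finset.mem_range]
    refine ⟨?_, ρ, hρ, by rw [h4]; linarith, by rw [h4]; linarith⟩
    have h5 : ⌈ρ.im⌉₊ ≤ ⌈2 * T⌉₊ := Nat.ceil_le_ceil (hAsub hρ).2.2.2
    omega)
  -- logarithms
  have hlogH : Real.log T ≤ H ^ (ε / 4) := by
    have h1 : (Real.log T) ^ (4 / ε) ≤ H := (Real.rpow_le_rpow_of_exponent_le hlogT hBε).trans hTH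
    have h2 : ((Real.log T) ^ (4 / ε)) ^ (ε / 4) ≤ H ^ (ε / 4) :=
      Real.rpow_le_rpow (by positivity) h1 (by positivity)
    rw [← Real.rpow_mul (by linarith)] at h2
    have e1 : 4 / ε * (ε / 4) = 1 := by field_simp
    rwa [e1, Real.rpow_one] at h2
  have hlog2T : Real.log (2 * T) ≤ 2 * H ^ (ε / 4) := by
    have h1 : 2 * T ≤ T ^ 2 := by nlinarith
    have h2 := Real.log_le_log (by linarith) h1
    rw [Real.log_pow] at h2
    push_cast at h2
    linarith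
  have hHe4 : 0 < H ^ (ε / 4) := Real.rpow_pos_of_pos hHpos _
  have hq1 : (Mf.card : ℝ) * (C3 * Real.log (2 * T)) ≤ (2 * C + 3) * (C3 * 2) * H ^ (DE k σ + ε) := by
    have e1 : H ^ (DE k σ + ε / 2) * H ^ (ε / 4) ≤ H ^ (DE k σ + ε) := by
      rw [← Real.rpow_add hHpos]
      apply Real.rpow_le_rpow_of_exponent_le hH1
      linarith
    have e2 : (Mf.card : ℝ) = L.card := by rw [hLcard]
    rw [e2]
    calc (L.card : ℝ) * (C3 * Real.log (2 * T)) ≤ ((2 * C + 3) * H ^ (DE k σ + ε / 2)) * (C3 * (2 * H ^ (ε / 4))) := by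
          apply mul_le_mul hcardL _ _ (by positivity)
          · exact mul_le_mul_of_nonneg_left hlog2T hC3.le
          · apply mul_nonneg hC3.le
            exact Real.log_nonneg (by linarith)
      _ = (2 * C + 3) * (C3 * 2) * (H ^ (DE k σ + ε / 2) * H ^ (ε / 4)) := by ring
      _ ≤ _ := mul_le_mul_of_nonneg_left e1 (by positivity)
  have hc3 : C3 ≤ C3 * H ^ (DE k σ + ε) := le_mul_of_one_le_right hC3.le hPe1
  have hc4 : 0 ≤ C4 * H ^ (DE k σ + ε) := by positivity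
  calc (DH31.cnt A : ℝ) ≤ C3 + Mf.card * (C3 * Real.log (2 * T)) := hcnt
    _ ≤ _ := by linarith

/-- finitely many `k` at once -/
theorem fin_K (K : ℕ) (ε ε1 : ℝ) (hε : 0 < ε) (hεone : ε ≤ 1) (hε1 : 0 < ε1) : ∃ c B C : ℝ,
    0 < c ∧ 1 ≤ B ∧ 0 < C ∧ ∀ k : ℕ, 1 ≤ k → k ≤ K → ∀ σ T H : ℝ, 1 - (1 / 2) ^ k ≤ σ → σ ≤ 1 → 3 ≤ T → 2 ≤ H →
      (Real.log T) ^ B ≤ H → H ≤ T → (num (sparse c ε1 σ T H) : ℝ) ≤ C * H ^ (DE k σ + ε) := by
  induction K with
  | zero => exact ⟨1, 1, 1, one_pos, le_rfl, one_pos, fun k h1 h2 => by omega⟩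
  | succ K ih =>
    obtain ⟨c, B, C, hc, hB, hC, h⟩ := ih
    obtain ⟨c', B', C', hc', hB', hC', h'⟩ := fin_k (K + 1) ε ε1 (by omega) hε hεone hε1
    refine ⟨min c c', max B B', C + C', lt_min hc hc', hB.trans (le_max_left _ _), by positivity, ?_⟩
    intro k hk hkK σ T H hσ hσ1 hT hH hTH hHT
    have hlogT : 1 ≤ Real.log T := by
      rw [Real.le_log_iff_exp_le (by linarith)]
      have := Real.exp_one_lt_d9
      linarith
    have hTB : ∀ B'' : ℝ, B'' ≤ max B B' → (Real.log T) ^ B'' ≤ H := fun B'' hB'' =>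
      (Real.rpow_le_rpow_of_exponent_le hlogT hB'').trans hTH
    have hmono : ∀ c'' : ℝ, min c c' ≤ c'' →
        (num (sparse (min c c') ε1 σ T H) : ℝ) ≤ num (sparse c'' ε1 σ T H) := by
      intro c'' hcc
      exact_mod_cast DH31.cnt_mono sparse_finite (sparse_mono (by linarith) hcc le_rfl)
    have hP : 0 < H ^ (DE k σ + ε) := Real.rpow_pos_of_pos (by linarith) _
    rcases Nat.lt_or_ge k (K + 1) with h1 | h1
    · refine (hmono c (min_le_left _ _)).trans ((h k hk (by omega) σ T H hσ hσ1 hT hH (hTB B (le_max_left _ _)) hHT).trans ?_)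
      exact mul_le_mul_of_nonneg_right (by linarith) hP.le
    · have h2 : k = K + 1 := le_antisymm hkK h1
      subst h2
      refine (hmono c' (min_le_right _ _)).trans ((h' σ T H hσ hσ1 hT hH (hTB B' (le_max_right _ _)) hHT).trans ?_)
      exact mul_le_mul_of_nonneg_right (by linarith) hP.le

/-- the final theorem -/
theorem final (ε : ℝ) (hε : 0 < ε) : ∃ c B C : ℝ, 0 < c ∧ 0 < B ∧ 0 < C ∧
    ∀ k : ℕ, 1 ≤ k → ∀ σ T H : ℝ, 1 - (1 / 2) ^ k ≤ σ → σ ≤ 1 → 3 ≤ T → (Real.log T) ^ B ≤ H → H ≤ T →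
      (num (sparse c ε σ T H) : ℝ) ≤ C * H ^ (DE k σ + ε) := by
  obtain ⟨ε', hε'⟩ : ∃ ε' : ℝ, ε' = min ε 1 := ⟨_, rfl⟩
  have hε'0 : 0 < ε' := by rw [hε']; exact lt_min hε one_pos
  have hε'1 : ε' ≤ 1 := by rw [hε']; exact min_le_right _ _
  have hε'ε : ε' ≤ ε := by rw [hε']; exact min_le_left _ _
  obtain ⟨k1, hk1⟩ : ∃ k1 : ℕ, (1 / 2 : ℝ) ^ k1 < ε' / 4 := exists_pow_lt_of_lt_one (by positivity) (by norm_num)
  obtain ⟨k2, hk2⟩ : ∃ k2 : ℕ, k2 = k1 + 2 := ⟨_, rfl⟩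
  have hk22 : 1 ≤ k2 := by omega
  have hpow : (1 / 2 : ℝ) ^ k2 < ε' / 4 :=
    (pow_le_pow_of_le_one (by norm_num) (by norm_num) (by omega)).trans_lt hk1
  obtain ⟨c, B, C, hc, hB, hC, h⟩ := fin_K k2 (ε' / 2) ε (by positivity) (by linarith) hε
  refine ⟨c, max B 9, C, hc, by positivity, hC, ?_⟩
  intro k hk σ T H hσ hσ1 hT hTH hHT
  have hlogT : (109 / 100 : ℝ) ≤ Real.log T := by
    rw [Real.le_log_iff_exp_le (by linarith)]
    have h1 := Real.exp_one_lt_d9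
    have h2 : Real.exp (109 / 100) = Real.exp 1 * Real.exp (9 / 100) := by
      rw [← Real.exp_add]; norm_num
    have h3 : Real.exp (9 / 100) ≤ 1 / (1 - 9 / 100) := by
      have h4 := Real.add_one_le_exp (-(9 / 100 : ℝ))
      rw [Real.exp_neg] at h4
      rw [le_div_iff₀ (by norm_num)]
      have h5 := Real.exp_pos (9 / 100)
      have h6 := mul_le_mul_of_nonneg_left h4 h5.le
      rw [mul_inv_cancel₀ h5.ne'] at h6
      linarith
    rw [h2]
    have h5 := Real.exp_pos (9 / 100)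
    nlinarith
  have hH2 : 2 ≤ H := by
    refine le_trans ?_ hTH
    calc (2 : ℝ) ≤ (109 / 100) ^ 9 := by norm_num
      _ ≤ (Real.log T) ^ 9 := pow_le_pow_left₀ (by norm_num) hlogT 9
      _ = (Real.log T) ^ (9 : ℝ) := by
        rw [← Real.rpow_natCast]
        norm_num
      _ ≤ _ := Real.rpow_le_rpow_of_exponent_le (by linarith) (le_max_right _ _)
  have hTB : (Real.log T) ^ B ≤ H :=
    (Real.rpow_le_rpow_of_exponent_le (by linarith) (le_max_left _ _)).trans hTH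
  by_cases hkk : k ≤ k2
  · refine (h k hk hkk σ T H hσ hσ1 hT hH2 hTB hHT).trans ?_
    apply mul_le_mul_of_nonneg_left _ hC.le
    exact Real.rpow_le_rpow_of_exponent_le (by linarith) (by linarith)
  · push Not at hkk
    obtain ⟨σ', hσ'⟩ : ∃ σ' : ℝ, σ' = 1 - (1 / 2) ^ k2 := ⟨_, rfl⟩
    have h1 : (1 / 2 : ℝ) ^ k ≤ (1 / 2) ^ k2 :=
      pow_le_pow_of_le_one (by norm_num) (by norm_num) hkk.le
    have hp0 : (0 : ℝ) < (1 / 2) ^ k2 := by positivity
    have h2 : σ' ≤ σ := by rw [hσ']; linarith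
    have h3 : (num (sparse c ε σ T H) : ℝ) ≤ num (sparse c ε σ' T H) := by
      exact_mod_cast DH31.cnt_mono sparse_finite (sparse_mono (by linarith) le_rfl h2)
    have h4 := h k2 hk22 le_rfl σ' T H (by rw [hσ']) (by rw [hσ']; linarith) hT hH2 hTB hHT
    have hM0 : (0 : ℝ) < 2 ^ k2 := by positivity
    have hx : 2 - 2 * σ' = 2 / 2 ^ k2 := by
      rw [hσ', div_pow, one_pow]
      ring
    obtain ⟨-, -, -, -, g3, -, -⟩ := exponents hk22 one_pos le_rfl (show (0 : ℝ) < 1 / 100 by norm_num)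
      le_rfl (show 0 ≤ 2 - 2 * σ' by rw [hx]; positivity) hx.le rfl
    have hDE' : DE k2 σ' ≤ ε' / 2 := by
      unfold DE
      rw [show 2 * (1 - σ') = 2 - 2 * σ' by ring, div_le_iff₀ (by linarith)]
      have h5 : 2 - 2 * σ' ≤ ε' / 2 := by rw [hσ']; linarith
      nlinarith
    have hDE0 := DE_nonneg hk hσ hσ1
    refine h3.trans (h4.trans ?_)
    apply mul_le_mul_of_nonneg_left _ hC.le
    exact Real.rpow_le_rpow_of_exponent_le (by linarith) (by linarith)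

end Pool.Agent.Zk1.BI
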